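import Pool.Agent.TH735.AQ.Defs

/-!
# Flat twists
-/

set_option autoImplicit false

namespace Q36.EF

open Pool.Agent.W594.SYZ2

variable {V : Type*} [NormedAddCommGroup V] [NormedSpace ℂ V] {Γ : Subgroup (V ≃ᵃ[ℂ] V)}

/-- `M` is the line bundle `L ^ k ⊗ P`, where `P` is the flat line bundle given by the unitary
character `χ`. -/
def IsFlatTwist (M L : LineBundle Γ) (k : ℕ) (χ : Γ → ℂ) : Prop :=
  (∀ γ, ‖χ γ‖ = 1) ∧ ∀ γ v, M.e γ v = L.e γ v ^ k * χ γ

end Q36.EF
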