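import Pool.Agent.Q36.EF.Syz
import Pool.Agent.Q36.EF.Twist

/-!
# The fibration of a nef class on a torus quotient
-/

set_option autoImplicit false

namespace Q36.EF

open Pool.Agent.W594.SYZ2 Pool.Agent.TH735.AQ

variable {V : Type*} [NormedAddCommGroup V] [NormedSpace ℂ V] [FiniteDimensional ℂ V]
  {Γ : Subgroup (V ≃ᵃ[ℂ] V)} {L : LineBundle Γ} {H : V → V → ℂ}

/-- Existence and uniqueness of the fibration. -/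
theorem cy (hΓ : IsTorusQuotient Γ) (hc : IsChernForm L H) (hn : IsNefForm H) :
    ∃ (n : ℕ) (Δ : Subgroup ((Fin n → ℂ) ≃ᵃ[ℂ] (Fin n → ℂ))) (π : V →ₗ[ℂ] (Fin n → ℂ)),
      IsFibration Γ Δ π ∧
      (∃ (M : LineBundle Γ) (χ : Γ → ℂ), IsFlatTwist M L (N (Module.finrank ℂ V)) χ ∧
        (HOneZero Γ → ∀ γ, χ γ = 1) ∧
        Defines M (fun v w => (N (Module.finrank ℂ V) : ℂ) * H v w) Δ π) ∧
      ∀ (n' : ℕ) (Δ' : Subgroup ((Fin n' → ℂ) ≃ᵃ[ℂ] (Fin n' → ℂ)))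
        (π' : V →ₗ[ℂ] (Fin n' → ℂ)), IsFibration Γ Δ' π' →
        ∀ (m : ℕ) (B : (Fin n' → ℂ) → (Fin n' → ℂ) → ℂ), 1 ≤ m → IsHermitian B →
          IsPositiveForm B → (∀ v w, B (π' v) (π' w) = (m : ℂ) * H v w) →
        ∃ φ : (Fin n → ℂ) ≃ₗ[ℂ] (Fin n' → ℂ), (∀ v, π' v = φ (π v)) ∧
          ∀ δ' : (Fin n' → ℂ) ≃ᵃ[ℂ] (Fin n' → ℂ),
            δ' ∈ Δ' ↔ ∃ δ ∈ Δ, ∀ w, δ' (φ w) = φ (δ w) := by
  obtain ⟨n, Δ, π, hker, hf, ⟨P, hP, hPd⟩, h2⟩ := exists_defines hΓ hc hn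
  refine ⟨n, Δ, π, hf, ?_, fun n' Δ' π' hf' m B hm hB hp h => unique_fib hf hf' fun v => ?_⟩
  · by_cases h01 : HOneZero Γ
    · refine ⟨_, fun _ => 1, ⟨fun γ => norm_one, fun γ v => ?_⟩, fun _ _ => rfl, h2 h01⟩
      rw [mul_one]
      rfl
    · refine ⟨_, fun γ => P.e γ 0, ⟨fun γ => hP.2 γ 0, fun γ v => ?_⟩, fun h => absurd h h01, hPd⟩
      change L.e γ v ^ N (Module.finrank ℂ V) * P.e γ v = L.e γ v ^ N (Module.finrank ℂ V) * P.e γ 0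
      rw [hP.1 γ v 0]
  · rw [hker, ker_of_pull hB hp hm h]

end Q36.EF
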