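import Pool.Agent.TH735.AQ.Defs

/-!
# The fibration defined by a linear system on a torus quotient: definitions

`X = V / Γ` and `B = W / Δ` are torus quotients, and `f : X → B` is the map given by a linear map
`π : V → W`. `LineBundle` and `LineBundle.IsSection` are defined in `Pool.Agent.W594.SYZ.Defs2`,
`IsChernForm` and `IsPositiveForm` in `Pool.Agent.W594.SYZ.TQDefs`.
-/

set_option autoImplicit false

namespace Q36.EF

open Pool.Agent.W594.SYZ2

variable {V W : Type*} [NormedAddCommGroup V] [NormedSpace ℂ V] [NormedAddCommGroup W]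
  [NormedSpace ℂ W] {Γ : Subgroup (V ≃ᵃ[ℂ] V)}

/-- The exponent `3 ((3 ^ (4 d ^ 2))!) ^ 3`. -/
def N (d : ℕ) : ℕ := 3 * (3 ^ (2 * d) ^ 2).factorial ^ 3

/-- `L` is base point free: for every point there is a global section of `L` that does not vanish
there. -/
def BasePointFree (L : LineBundle Γ) : Prop := ∀ v, ∃ s, L.IsSection s ∧ s v ≠ 0

/-- The values of the sections at the points given by `v` and `v'` are proportional. If `L` is base
point free this says that the morphism defined by the linear system `|L|` sends the two points to the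
same point. -/
def SameImage (L : LineBundle Γ) (v v' : V) : Prop :=
  ∀ s t, L.IsSection s → L.IsSection t → s v * t v' = s v' * t v

/-- The multiplication with the nowhere vanishing function `h` is an isomorphism from `L` to the
pullback `f^* A`. -/
structure IsIso (L : LineBundle Γ) {Δ : Subgroup (W ≃ᵃ[ℂ] W)} (A : LineBundle Δ) (π : V →ₗ[ℂ] W)
    (h : V → ℂ) : Prop where
  holo : Differentiable ℂ h
  ne_zero : ∀ v, h v ≠ 0
  eq : ∀ (γ : Γ) (δ : Δ), (∀ v, (δ : W ≃ᵃ[ℂ] W) (π v) = π ((γ : V ≃ᵃ[ℂ] V) v)) →
    ∀ v, h ((γ : V ≃ᵃ[ℂ] V) v) * L.e γ v = A.e δ (π v) * h v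

/-- The linear system `|L|` is base point free and defines the fibration `f : V / Γ → W / Δ` given by
`π`: for a line bundle `A` on `B = W / Δ` with a positive definite Chern form `HA` (an ample line
bundle), whose pullback is the form `H`,
* `L` is isomorphic to `f^* A`, and all sections of `L` are the pullbacks of sections of `A`;
* `A` is base point free, and the morphism defined by `|A|` is injective on `B`.

So the morphism defined by `|L|` is `f` followed by the injective morphism defined by `|A|`; in
particular its fibres are the fibres of `f`. -/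
structure Defines (L : LineBundle Γ) (H : V → V → ℂ) (Δ : Subgroup (W ≃ᵃ[ℂ] W))
    (π : V →ₗ[ℂ] W) : Prop where
  bpf : BasePointFree L
  fibres : ∀ v v', SameImage L v v' ↔ ∃ γ : Γ, π ((γ : V ≃ᵃ[ℂ] V) v) = π v'
  pullback : ∃ (A : LineBundle Δ) (HA : W → W → ℂ) (h : V → ℂ),
    IsChernForm A HA ∧ IsPositiveForm HA ∧ (∀ v w, HA (π v) (π w) = H v w) ∧
    BasePointFree A ∧ (∀ w w', SameImage A w w' ↔ ∃ δ : Δ, (δ : W ≃ᵃ[ℂ] W) w = w') ∧
    IsIso L A π h ∧ ∀ s, L.IsSection s ↔ ∃ t, A.IsSection t ∧ ∀ v, h v * s v = t (π v)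

end Q36.EF
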