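import Pool.Agent.Q36.EF.Kc
import Pool.Agent.Q36.EF.Defs
import Pool.Agent.Q42.EB.Main

/-!
# The linear system of a nef line bundle defines the fibration
-/

set_option autoImplicit false

namespace Q36.EF

open Pool.Agent.W594.SYZ2 Pool.Agent.W594.SYZ2.TQ Pool.Agent.TH735.AQ

variable {V W : Type*} [NormedAddCommGroup V] [NormedSpace ℂ V] [FiniteDimensional ℂ V]
  [NormedAddCommGroup W] [NormedSpace ℂ W] [FiniteDimensional ℂ W]
  {Γ : Subgroup (V ≃ᵃ[ℂ] V)} {L : LineBundle Γ} {H : V → V → ℂ} {F : V → ℂ}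

omit [FiniteDimensional ℂ V] [FiniteDimensional ℂ W] in
/-- The group of the induced transformations is determined. -/
theorem eq_Del {Δ : Subgroup (W ≃ᵃ[ℂ] W)} {π : V →ₗ[ℂ] W} (hs : Function.Surjective π)
    (hm : ∀ γ ∈ Γ, ∃ δ ∈ Δ, ∀ v, δ (π v) = π (γ v))
    (ho : ∀ δ ∈ Δ, ∃ γ ∈ Γ, ∀ v, δ (π v) = π (γ v)) : Δ = Del Γ π := by
  ext δ
  constructor
  · intro h
    exact ho δ h
  · rintro ⟨γ, hγ, h⟩
    obtain ⟨δ', hδ', h'⟩ := hm γ hγ
    have : δ = δ' := by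
      ext w
      obtain ⟨v, rfl⟩ := hs w
      rw [h, h']
    rwa [this]

omit [FiniteDimensional ℂ W] in
theorem sameImage_symm {Δ : Subgroup (W ≃ᵃ[ℂ] W)} {A : LineBundle Δ} {w : W} (δ : Δ) :
    SameImage A w ((δ : W ≃ᵃ[ℂ] W) w) := by
  intro s t hs ht
  rw [hs.eq, ht.eq]
  ring

/-- An ample line bundle whose power is divisible by `ext Δ`. -/
theorem base_sep {Δ : Subgroup (W ≃ᵃ[ℂ] W)} {A : LineBundle Δ} {HA : W → W → ℂ}
    (hΔ : IsTorusQuotient Δ) (hc : IsChernForm A HA) (hp : IsPositiveForm HA) {k : ℕ}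
    (hk : 1 ≤ k) (hd : ext Δ ∣ k) :
    BasePointFree (A.pow k) ∧
      ∀ w w', SameImage (A.pow k) w w' ↔ ∃ δ : Δ, (δ : W ≃ᵃ[ℂ] W) w = w' := by
  have hg : BasePointFree (A.pow k) := (gg_base hΔ hc hp).mul hd
  refine ⟨hg, fun w w' => ⟨fun h => ?_, ?_⟩⟩
  · by_contra hcon
    push Not at hcon
    obtain ⟨j, rfl⟩ := hd
    obtain ⟨s, hs, hs0, hs1⟩ := sep_base hΔ hc hp (w := w) (w' := w') (fun δ hδ => by
      refine hcon δ⁻¹ ?_
      rw [← hδ]
      exact (δ : W ≃ᵃ[ℂ] W).symm_apply_apply w')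
    have hj : j ≠ 0 := by
      rintro rfl
      omega
    have hsj : (A.pow (ext Δ * j)).IsSection fun w => s w ^ j := by
      refine ⟨hs.holo.pow j, fun δ w => ?_⟩
      rw [hs.eq δ w]
      change (A.e δ w ^ ext Δ * s w) ^ j = A.e δ w ^ (ext Δ * j) * s w ^ j
      rw [mul_pow, pow_mul]
    obtain ⟨t, ht, ht0⟩ := hg w
    have h1 := h _ t hsj ht
    simp only [hs0, zero_pow hj, zero_mul] at h1
    exact mul_ne_zero (pow_ne_zero j hs1) ht0 h1.symm
  · rintro ⟨δ, rfl⟩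
    exact sameImage_symm δ

variable {π : V →ₗ[ℂ] W} {hH : IsHermitian H} {N₀ : ℕ}

/-- The main construction. -/
theorem defines_of_sit (S : Sit Γ L H F π hH N₀) {k : ℕ} (hk : 1 ≤ k) (hd : ext (Del Γ π) ∣ k) :
    Defines (L.pow (ex Γ N₀ * k)) (fun v w => ((ex Γ N₀ * k : ℕ) : ℂ) * H v w) (Del Γ π) π := by
  have hπ : Differentiable ℂ fun v => π v := by
    have h1 : (fun v => π v) = LinearMap.toContinuousLinearMap π := rfl
    rw [h1]
    exact ContinuousLinearMap.differentiable _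
  have hsecd : Differentiable ℂ fun w => sec π w := by
    have h1 : (fun w => sec π w) = LinearMap.toContinuousLinearMap (sec π) := rfl
    rw [h1]
    exact ContinuousLinearMap.differentiable _
  set M := ex Γ N₀ * k with hM
  obtain ⟨hbA, hsA⟩ := base_sep S.base (HA_chern S) (HA_pos S) hk hd
  have hmaps : ∀ γ : Γ, ∃ δ : Del Γ π, ∀ v, (δ : W ≃ᵃ[ℂ] W) (π v) = π ((γ : V ≃ᵃ[ℂ] V) v) := by
    intro γ
    obtain ⟨δ, hδ, h⟩ := S.isFibration.maps γ γ.2
    exact ⟨⟨δ, hδ⟩, h⟩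
  have hsecK : ∀ v, sec π (π v) - v ∈ ker hH := fun v => by
    rw [← S.ker_iff, map_sub, sec_spec S.surj, sub_self]
  let h : V → ℂ := fun v => Complex.exp (-(M * F v))
  have hiso : IsIso (L.pow M) ((bun S).pow k) π h := by
    refine ⟨(S.pot.1.const_mul (M : ℂ)).neg.cexp, fun v => Complex.exp_ne_zero _, ?_⟩
    intro γ δ hγδ v
    change h ((γ : V ≃ᵃ[ℂ] V) v) * L.e γ v ^ M = (bun S).e δ (π v) ^ k * h v
    rw [bun_e S γ δ hγδ v, ← pow_mul, ← hM, tw, mul_pow, ← Complex.exp_nat_mul]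
    simp only [h]
    have h2 : Complex.exp (-(M * F ((γ : V ≃ᵃ[ℂ] V) v)))
        = Complex.exp (M * (F v - F ((γ : V ≃ᵃ[ℂ] V) v))) * Complex.exp (-(M * F v)) := by
      rw [← Complex.exp_add]
      congr 1
      ring
    rw [h2]
    ring
  have hsec : ∀ s, (L.pow M).IsSection s ↔
      ∃ t, ((bun S).pow k).IsSection t ∧ ∀ v, h v * s v = t (π v) := by
    intro s
    constructor
    · intro hs
      have hconst : ∀ v z, z ∈ ker hH → h (v + z) * s (v + z) = h v * s v := by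
        intro v z hz
        have h1 := ker_const S.tq hH S.pot hs hz v
        simp only [h]
        rw [mul_comm, h1, mul_comm]
      have hfac : ∀ v, h (sec π (π v)) * s (sec π (π v)) = h v * s v := by
        intro v
        have h1 := hconst v _ (hsecK v)
        rwa [add_sub_cancel] at h1
      refine ⟨fun w => h (sec π w) * s (sec π w), ⟨?_, ?_⟩, fun v => (hfac v).symm⟩
      · exact (hiso.holo.comp hsecd).mul (hs.holo.comp hsecd)
      · intro δ w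
        obtain ⟨v, rfl⟩ := S.surj w
        obtain ⟨γ, hγ, hγδ⟩ := δ.2
        have h1 := hiso.eq ⟨γ, hγ⟩ δ hγδ v
        have h2 := hs.eq ⟨γ, hγ⟩ v
        have h3 : (δ : W ≃ᵃ[ℂ] W) (π v) = π (γ v) := hγδ v
        change h (sec π ((δ : W ≃ᵃ[ℂ] W) (π v))) * s (sec π ((δ : W ≃ᵃ[ℂ] W) (π v)))
          = ((bun S).pow k).e δ (π v) * (h (sec π (π v)) * s (sec π (π v)))
        rw [h3, hfac, hfac]
        change s (γ v) = _ at h2
        change h (γ v) * _ = _ at h1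
        rw [h2, ← mul_assoc, h1]
        ring
    · rintro ⟨t, ht, hst⟩
      have hs : s = fun v => (h v)⁻¹ * t (π v) := by
        funext v
        rw [← hst, inv_mul_cancel_left₀ (hiso.ne_zero v)]
      refine ⟨?_, ?_⟩
      · rw [hs]
        exact (hiso.holo.inv hiso.ne_zero).mul (ht.holo.comp hπ)
      · intro γ v
        obtain ⟨δ, hδ⟩ := hmaps γ
        apply mul_left_cancel₀ (hiso.ne_zero ((γ : V ≃ᵃ[ℂ] V) v))
        rw [hst, ← hδ, ht.eq, ← mul_assoc, hiso.eq γ δ hδ v, mul_assoc, hst]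
  have hsame : ∀ v v', SameImage (L.pow M) v v' ↔ SameImage ((bun S).pow k) (π v) (π v') := by
    intro v v'
    constructor
    · intro hss s t hs ht
      have h1 := hss _ _ ((hsec fun v => (h v)⁻¹ * s (π v)).2 ⟨s, hs, fun v => by
        rw [mul_inv_cancel_left₀ (hiso.ne_zero v)]⟩)
        ((hsec fun v => (h v)⁻¹ * t (π v)).2 ⟨t, ht, fun v => by
        rw [mul_inv_cancel_left₀ (hiso.ne_zero v)]⟩)
      have h2 : ((h v)⁻¹ * (h v')⁻¹) ≠ 0 :=
        mul_ne_zero (inv_ne_zero (hiso.ne_zero v)) (inv_ne_zero (hiso.ne_zero v'))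
      apply mul_left_cancel₀ h2
      linear_combination h1
    · intro hss s t hs ht
      obtain ⟨s', hs', hs1⟩ := (hsec s).1 hs
      obtain ⟨t', ht', ht1⟩ := (hsec t).1 ht
      have h1 := hss s' t' hs' ht'
      rw [← hs1, ← hs1, ← ht1, ← ht1] at h1
      apply mul_left_cancel₀ (mul_ne_zero (hiso.ne_zero v) (hiso.ne_zero v'))
      linear_combination h1
  refine ⟨?_, ?_, (bun S).pow k, fun x y => (k : ℂ) * HA Γ H π N₀ x y, h, ?_, ?_, ?_, hbA, hsA,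
    hiso, hsec⟩
  · intro v
    obtain ⟨t, ht, ht0⟩ := hbA (π v)
    refine ⟨fun v => (h v)⁻¹ * t (π v), (hsec _).2 ⟨t, ht, fun v => by
      rw [mul_inv_cancel_left₀ (hiso.ne_zero v)]⟩, mul_ne_zero (inv_ne_zero (hiso.ne_zero v)) ht0⟩
  · intro v v'
    rw [hsame, hsA]
    constructor
    · rintro ⟨δ, hδ⟩
      obtain ⟨γ, hγ, hγδ⟩ := δ.2
      exact ⟨⟨γ, hγ⟩, by rw [← hδ, hγδ]⟩
    · rintro ⟨γ, hγ⟩
      obtain ⟨δ, hδ⟩ := hmaps γ
      exact ⟨δ, by rw [hδ, hγ]⟩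
  · exact Pool.Agent.Q42.EB.chern_pow (HA_chern S) k
  · intro w hw
    have h1 := HA_pos S w hw
    have h2 : ((k : ℕ) : ℂ) = ((k : ℝ) : ℂ) := by push_cast; rfl
    have h3 : (0 : ℝ) < k := by exact_mod_cast hk
    change 0 < ((k : ℂ) * HA Γ H π N₀ w w).re
    rw [h2, Complex.re_ofReal_mul]
    exact mul_pos h3 h1
  · intro v w
    have h1 : H (sec π (π v)) (sec π (π w)) = H v w := by
      have e1 : sec π (π v) = v + (sec π (π v) - v) := by abel
      have e2 : sec π (π w) = w + (sec π (π w) - w) := by abel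
      rw [e1, hH.add_left, hsecK v, add_zero, e2, h_add_right hH,
        h_ker_right hH (hsecK w), add_zero]
    change (k : ℂ) * (((ex Γ N₀ : ℕ) : ℂ) * H (sec π (π v)) (sec π (π w))) = (M : ℂ) * H v w
    rw [h1, hM]
    push_cast
    ring

/-- The fibration defined by the kernel of the Chern form, with the uniform exponent. -/
theorem defines_of_root {W : Type*} [NormedAddCommGroup W] [NormedSpace ℂ W]
    [FiniteDimensional ℂ W] {Δ : Subgroup (W ≃ᵃ[ℂ] W)} {π : V →ₗ[ℂ] W}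
    (hΓ : IsTorusQuotient Γ) (hH : IsHermitian H) (hF : IsPot L H F)
    (hn : IsNefForm H) {N₀ : ℕ} (hN : 1 ≤ N₀) (hd : N₀ ∣ Q47.EB.mink (Module.finrank ℂ V))
    (hroot : ∀ b ∈ latt Γ, b ∈ ker hH → chi L F b ^ N₀ = 1)
    (hs : Function.Surjective π) (hm : ∀ γ ∈ Γ, ∃ δ ∈ Δ, ∀ v, δ (π v) = π (γ v))
    (ho : ∀ δ ∈ Δ, ∃ γ ∈ Γ, ∀ v, δ (π v) = π (γ v)) (hker : ∀ v, π v = 0 ↔ ∀ w, H v w = 0) :
    Defines (L.pow (N (Module.finrank ℂ V)))
      (fun v w => (N (Module.finrank ℂ V) : ℂ) * H v w) Δ π := by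
  have hΔ := eq_Del hs hm ho
  subst hΔ
  have S : Pool.Agent.TH735.AQ.Sit Γ L H F π hH N₀ := ⟨hΓ, hF, hn, hs, hker, hN, hroot⟩
  have h2 : Nat.card (Lin Γ) ∣ Q47.EB.mink (Module.finrank ℂ V) := Q47.EB.card_Lin_dvd hΓ
  have h3 : Nat.card (Lin (Del Γ π)) ∣ Q47.EB.mink (Module.finrank ℂ V) :=
    (Q47.EB.card_Lin_dvd S.base).trans (Q47.EB.mink_dvd (LinearMap.finrank_le_finrank_of_surjective hs))
  obtain ⟨c, hc⟩ := Nat.mul_dvd_mul h2 hd
  obtain ⟨c', hc'⟩ := h3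
  have hpos := Q47.EB.mink_pos (Module.finrank ℂ V)
  have h5 : N (Module.finrank ℂ V) = Pool.Agent.TH735.AQ.ex Γ N₀ * (ext (Del Γ π) * (c * c')) := by
    have e1 : N (Module.finrank ℂ V) = 3 * Q47.EB.mink (Module.finrank ℂ V) ^ 3 := rfl
    rw [e1, Pool.Agent.TH735.AQ.ex, ext]
    have e2 : 3 * Q47.EB.mink (Module.finrank ℂ V) ^ 3 = Q47.EB.mink (Module.finrank ℂ V) *
        Q47.EB.mink (Module.finrank ℂ V) * (3 * Q47.EB.mink (Module.finrank ℂ V)) := by ring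
    rw [e2, hc]
    rw [hc']
    ring
  have h6 : 1 ≤ ext (Del Γ π) * (c * c') := by
    rw [Nat.one_le_iff_ne_zero]
    intro h0
    rw [h0, mul_zero] at h5
    have e1 : N (Module.finrank ℂ V) = 3 * Q47.EB.mink (Module.finrank ℂ V) ^ 3 := rfl
    rw [e1] at h5
    have := pow_pos hpos 3
    omega
  rw [h5]
  exact defines_of_sit S h6 (Dvd.intro _ rfl)

/-- If `H^1(O) = 0` the hypothesis on the character holds. -/
theorem defines_of_hone {W : Type*} [NormedAddCommGroup W] [NormedSpace ℂ W]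
    [FiniteDimensional ℂ W] {Δ : Subgroup (W ≃ᵃ[ℂ] W)} {π : V →ₗ[ℂ] W}
    (hΓ : IsTorusQuotient Γ) (h01 : HOneZero Γ) (hc : IsChernForm L H) (hn : IsNefForm H)
    (hs : Function.Surjective π) (hm : ∀ γ ∈ Γ, ∃ δ ∈ Δ, ∀ v, δ (π v) = π (γ v))
    (ho : ∀ δ ∈ Δ, ∃ γ ∈ Γ, ∀ v, δ (π v) = π (γ v)) (hker : ∀ v, π v = 0 ↔ ∀ w, H v w = 0) :
    Defines (L.pow (N (Module.finrank ℂ V)))
      (fun v w => (N (Module.finrank ℂ V) : ℂ) * H v w) Δ π := by
  obtain ⟨hH, F, hF, hFe⟩ := hc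
  have := finite_Lin hΓ
  exact defines_of_root hΓ hH ⟨hF, hFe⟩ hn (Nat.card_pos : 0 < Nat.card (Lin Γ))
    (Q47.EB.card_Lin_dvd hΓ) (fun b hb hbK => chi_pow hΓ h01 hH ⟨hF, hFe⟩ hb hbK) hs hm ho hker

/-- A base point free line bundle with Chern form zero is trivial. -/
theorem trivial_of_zero (hΓ : IsTorusQuotient Γ) (hc : IsChernForm L H) (h0 : ∀ v w, H v w = 0)
    {k : ℕ} (hb : BasePointFree (L.pow k)) : (L.pow k).IsTrivial := by
  obtain ⟨hH, F, hF, hFe⟩ := hc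
  obtain ⟨s, hs, hs0⟩ := hb 0
  refine ⟨s, hs, fun v hv => ?_⟩
  have h1 := ker_const hΓ hH ⟨hF, hFe⟩ hs (h0 v) 0
  rw [zero_add, hv, zero_mul] at h1
  exact mul_ne_zero hs0 (Complex.exp_ne_zero _) h1.symm

end Q36.EF
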