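import Pool.Agent.Q36.EF.Sep

/-!
# Sections are constant along the kernel of the Chern form
-/

set_option autoImplicit false

namespace Q36.EF

open Pool.Agent.W594.SYZ2 Pool.Agent.W594.SYZ2.TQ Pool.Agent.TH735.AQ

variable {V : Type*} [NormedAddCommGroup V] [NormedSpace ℂ V] [FiniteDimensional ℂ V]
  {Γ : Subgroup (V ≃ᵃ[ℂ] V)} {L : LineBundle Γ} {H : V → V → ℂ} {F : V → ℂ}

/-- A section, divided by `exp (k F)`, is constant in the directions of the kernel of the Chern
form. -/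
theorem ker_const (hΓ : IsTorusQuotient Γ) (hH : IsHermitian H) (hF : IsPot L H F) {k : ℕ}
    {s : V → ℂ} (hs : (L.pow k).IsSection s) {z : V} (hz : ∀ w, H z w = 0) (v : V) :
    s (v + z) * Complex.exp (-(k * F (v + z))) = s v * Complex.exp (-(k * F v)) := by
  have : ProperSpace V := FiniteDimensional.proper ℂ V
  obtain ⟨hs1, hs2⟩ := hs
  let u : V → ℂ := fun v => s v * Complex.exp (-(k * F v))
  have hu : Differentiable ℂ u := hs1.mul ((hF.1.const_mul (k : ℂ)).neg.cexp)
  have hut : ∀ (γ : Γ) (v : V), u ((γ : V ≃ᵃ[ℂ] V) v) = tw L F γ v ^ k * u v := by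
    intro γ v
    have h1 : s ((γ : V ≃ᵃ[ℂ] V) v) = L.e γ v ^ k * s v := hs2 γ v
    simp only [u]
    rw [h1, tw, mul_pow, ← Complex.exp_nat_mul]
    have h2 : Complex.exp (-(k * F ((γ : V ≃ᵃ[ℂ] V) v)))
        = Complex.exp (k * (F v - F ((γ : V ≃ᵃ[ℂ] V) v))) * Complex.exp (-(k * F v)) := by
      rw [← Complex.exp_add]
      congr 1
      ring
    rw [h2]
    ring
  let φ : V → ℝ := fun v => ‖u v‖ ^ 2 * Real.exp (-(k * (Real.pi * (H v v).re)))
  have hper : ∀ (γ : Γ) (v : V), φ ((γ : V ≃ᵃ[ℂ] V) v) = φ v := by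
    intro γ v
    simp only [φ]
    rw [hut, norm_mul, norm_pow, mul_pow, ← pow_mul, mul_comm k 2, pow_mul, tw_norm hF,
      ← Real.exp_nat_mul]
    have e : ∀ a b c d : ℝ, a * b * c = b * (a * c) := fun a b c d => by ring
    rw [e _ _ _ 0, ← Real.exp_add]
    congr 2
    ring
  have hφc : Continuous φ := by
    refine ((hu.continuous.norm).pow 2).mul (Real.continuous_exp.comp ?_)
    exact (((diag_continuous hH).const_mul Real.pi).const_mul (k : ℝ)).neg
  obtain ⟨C, hC⟩ := cobounded (latt Γ) hΓ.span_top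
  have hK : IsCompact (Metric.closedBall (0 : V) C) := isCompact_closedBall _ _
  obtain ⟨R, hR⟩ := (isBounded_iff_forall_norm_le.1 (hK.image hφc).isBounded)
  have hbd : ∀ v, φ v ≤ R := by
    intro v
    obtain ⟨b, hb, hbC⟩ := hC v
    rw [← hper (tr b hb) v, tr_apply]
    exact (le_abs_self _).trans (hR _ ⟨b + v, by rwa [mem_closedBall_zero_iff], rfl⟩)
  have hdiag : ∀ c : ℂ, H (v + c • z) (v + c • z) = H v v := by
    intro c
    rw [hH.add_left, hH.smul_left, hz, mul_zero, add_zero, h_add_right hH, h_smul_right hH,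
      hH.symm z v, hz, map_zero, mul_zero, add_zero]
  have hup : ∀ c : ℂ, ‖u (v + c • z)‖ ^ 2 ≤ R * Real.exp (k * (Real.pi * (H v v).re)) := by
    intro c
    have h1 := mul_le_mul_of_nonneg_right (hbd (v + c • z))
      (Real.exp_pos (k * (Real.pi * (H v v).re))).le
    have h2 : φ (v + c • z) * Real.exp (k * (Real.pi * (H v v).re)) = ‖u (v + c • z)‖ ^ 2 := by
      simp only [φ]
      rw [hdiag, mul_assoc, ← Real.exp_add, neg_add_cancel, Real.exp_zero, mul_one]
    rwa [h2] at h1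
  have hline : Differentiable ℂ fun c : ℂ => v + c • z :=
    (differentiable_id.smul_const z).const_add v
  have hb : Bornology.IsBounded (Set.range fun c : ℂ => u (v + c • z)) := by
    rw [isBounded_iff_forall_norm_le]
    refine ⟨R * Real.exp (k * (Real.pi * (H v v).re)) + 1, ?_⟩
    rintro _ ⟨c, rfl⟩
    have h3 := hup c
    change ‖u (v + c • z)‖ ≤ _
    nlinarith [norm_nonneg (u (v + c • z)), sq_nonneg (‖u (v + c • z)‖ - 1)]
  have h1 := (hu.comp hline).apply_eq_apply_of_bounded hb 1 0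
  have h2 : u (v + (1 : ℂ) • z) = u (v + (0 : ℂ) • z) := h1
  rw [one_smul, zero_smul, add_zero] at h2
  exact h2

/-- All sections take proportional values at two points of the same fibre. -/
theorem same_of_fibre (hΓ : IsTorusQuotient Γ) (hH : IsHermitian H) (hF : IsPot L H F) {k : ℕ}
    {v v' : V} (γ : Γ) (hγ : ∀ w, H ((γ : V ≃ᵃ[ℂ] V) v - v') w = 0) :
    ∃ μ : ℂ, μ ≠ 0 ∧ ∀ s, (L.pow k).IsSection s → s v' = μ * s v := by
  have hz : ∀ w, H (v' - (γ : V ≃ᵃ[ℂ] V) v) w = 0 := fun w => by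
    rw [← neg_sub, h_neg_left hH, hγ, neg_zero]
  set g : V := (γ : V ≃ᵃ[ℂ] V) v with hg
  refine ⟨Complex.exp (k * F v') * Complex.exp (-(k * F g)) * L.e γ v ^ k,
    mul_ne_zero (mul_ne_zero (Complex.exp_ne_zero _) (Complex.exp_ne_zero _))
      (pow_ne_zero _ (L.ne_zero _ _)), fun s hs => ?_⟩
  have h1 := ker_const hΓ hH hF hs hz g
  rw [add_sub_cancel] at h1
  have h2 : s g = L.e γ v ^ k * s v := hs.eq γ v
  rw [h2] at h1
  have h3 : Complex.exp (-(k * F v')) ≠ 0 := Complex.exp_ne_zero _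
  refine mul_right_cancel₀ h3 ?_
  rw [h1]
  have h4 : Complex.exp (k * F v') * Complex.exp (-(k * F v')) = 1 := by
    rw [← Complex.exp_add, add_neg_cancel, Complex.exp_zero]
  linear_combination (-(Complex.exp (-(k * F g)) * L.e γ v ^ k * s v)) * h4

end Q36.EF
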