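import Pool.Agent.Q47.EB.Nef
import Pool.Agent.Q47.FJ.T7

/-!
# Separation of points by the sections of ample line bundles on torus quotients
-/

set_option autoImplicit false

namespace Q36.EF

open Pool.Agent.W594.SYZ2 Pool.Agent.W594.SYZ2.TQ Pool.Agent.TH735.AQ

section Base

variable {W : Type*} [NormedAddCommGroup W] [NormedSpace ℂ W]
  {Δ : Subgroup (W ≃ᵃ[ℂ] W)} {A : LineBundle Δ} {H : W → W → ℂ}

/-- The pullback of the line bundle to the torus. -/
noncomputable def res (A : LineBundle Δ) : Q47.FJ.LB (Q47.FJ.torus (latt Δ)) :=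
  ⟨fun b z => Units.mk0 (A.e (tr (b : W) b.2) z) (A.ne_zero _ _), by
    refine ⟨fun b => (A.holo _).differentiableOn, fun k l m z _ _ _ _ _ _ h => ?_⟩
    apply Units.ext
    change A.e (tr (m : W) m.2) z = A.e (tr (l : W) l.2) (z + k) * A.e (tr (k : W) k.2) z
    have h1 : z + (m : W) = z + k + l := h
    have h2 : (m : W) = l + k := by
      have h3 : z + (m : W) = z + (l + k) := by rw [h1]; abel
      exact add_left_cancel h3
    have h3 : tr (m : W) m.2 = tr (l : W) l.2 * tr (k : W) k.2 := by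
      apply Subtype.ext
      apply AffineEquiv.ext
      intro v
      change (m : W) + v = (l : W) + ((k : W) + v)
      rw [h2, add_assoc]
    have h4 : ((tr (k : W) k.2 : Δ) : W ≃ᵃ[ℂ] W) z = z + k := by
      rw [tr_apply, add_comm]
    rw [h3, A.mul, h4]⟩

theorem ev_res (A : LineBundle Δ) (b : latt Δ) (z : W) :
    Q47.FJ.ev (res A) b z = A.e (tr (b : W) b.2) z := rfl

theorem res_chern (hc : IsChernForm A H) : Q47.FJ.IsChern (res A) H := by
  obtain ⟨hH, F, hF, h⟩ := hc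
  refine ⟨hH, F, hF, fun b z => ?_⟩
  have h1 := h (tr (b : W) b.2) z
  rw [tr_apply, add_comm (b : W) z] at h1
  exact h1

variable [FiniteDimensional ℂ W]

/-- The third power of an ample line bundle is very ample on the torus. -/
theorem res_va (hΔ : IsTorusQuotient Δ) (hc : IsChernForm A H) (hp : IsPositiveForm H) :
    Q47.FJ.VA (res A * res A * res A) := by
  have h1 := res_chern hc
  obtain ⟨χ, F, hχ, hF, hn⟩ := Q47.FJ.normal h1
  have D : Q47.FJ.PosData (res A) H χ F := ⟨hc.1, hp, hχ, hF, hn⟩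
  have h2 := h1.mul h1
  obtain ⟨χ', F', hχ', hF', hn'⟩ := Q47.FJ.normal h2
  have D' : Q47.FJ.PosData (res A * res A) (fun v w => H v w + H v w) χ' F' :=
    ⟨h2.1, fun v hv => by rw [Complex.add_re]; exact add_pos (hp v hv) (hp v hv), hχ', hF', hn'⟩
  exact Q47.FJ.va_three hΔ.discrete hΔ.span_top D D D
    (Q47.FJ.gg_two hΔ.discrete hΔ.span_top D' D)

omit [FiniteDimensional ℂ W] in
theorem sec_res {f : Unit → W → ℂ} (hf : Q47.FJ.IsSec (res A * res A * res A) f) :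
    Differentiable ℂ (f ()) ∧ ∀ (b : W) (hb : b ∈ latt Δ) (y : W),
      f () (b + y) = A.e (tr b hb) y ^ 3 * f () y := by
  refine ⟨differentiableOn_univ.1 (hf.holo ()), fun b hb y => ?_⟩
  have h1 := hf.eq ⟨b, hb⟩ y (Set.mem_univ _)
  change f () (y + b) = Q47.FJ.ev (res A * res A * res A) ⟨b, hb⟩ y * f () y at h1
  rw [Q47.FJ.ev_mul, Q47.FJ.ev_mul, ev_res, add_comm y b] at h1
  rw [h1]
  ring

omit [NormedSpace ℂ W] [FiniteDimensional ℂ W] in
/-- A member of a linear system which does not vanish at finitely many points. -/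
theorem avoid {Z : Type*} (S : (Z → ℂ) → Prop) (hS : ∀ f g, S f → S g → ∀ t : ℂ, S fun z => f z + t * g z)
    (h0 : S fun _ => 0) (T : Finset Z) (hT : ∀ p ∈ T, ∃ f, S f ∧ f p ≠ 0) :
    ∃ f, S f ∧ ∀ p ∈ T, f p ≠ 0 := by
  classical
  induction T using Finset.induction_on with
  | empty => exact ⟨_, h0, fun _ h => absurd h (Finset.notMem_empty _)⟩
  | insert q T _ ih =>
    obtain ⟨f, hf, hfT⟩ := ih fun p hp => hT p (Finset.mem_insert_of_mem hp)
    obtain ⟨g, hg, hgq⟩ := hT q (Finset.mem_insert_self _ _)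
    obtain ⟨t, ht⟩ := Infinite.exists_notMem_finset
      (insert (-f q / g q) (T.image fun p => -f p / g p) : Finset ℂ)
    rw [Finset.mem_insert, not_or] at ht
    refine ⟨_, hS f g hf hg t, fun p hp => ?_⟩
    intro hz
    rcases Finset.mem_insert.1 hp with rfl | hp
    · apply ht.1
      field_simp
      linear_combination hz
    · by_cases hgp : g p = 0
      · rw [hgp, mul_zero, add_zero] at hz
        exact hfT p hp hz
      · apply ht.2
        refine Finset.mem_image.2 ⟨p, hp, ?_⟩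
        field_simp
        linear_combination (-1 : ℂ) * hz

/-- The exponent `3 |Lin Δ|`. -/
noncomputable def ext (Δ : Subgroup (W ≃ᵃ[ℂ] W)) : ℕ := 3 * Nat.card (Lin Δ)

theorem gg_base (hΔ : IsTorusQuotient Δ) (hc : IsChernForm A H) (hp : IsPositiveForm H) :
    Q47.EB.GG (A.pow (ext Δ)) := by
  classical
  have := finite_Lin hΔ
  have : Fintype (Lin Δ) := Fintype.ofFinite _
  have hva := res_va hΔ hc hp
  have hr : ∀ g : Lin Δ, ∃ γ : Δ, (γ : W ≃ᵃ[ℂ] W).linear = g.1 := by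
    rintro ⟨g, γ, hγ, rfl⟩
    exact ⟨⟨γ, hγ⟩, rfl⟩
  choose r hr using hr
  intro v
  obtain ⟨f, hf, hfv⟩ := avoid (fun f : W → ℂ => Q47.FJ.IsSec (res A * res A * res A) fun _ => f)
    (fun f g hf hg t => by simpa using hf.comb hg 1 (-t))
    ⟨fun _ => differentiableOn_const _, fun _ _ _ => by simp⟩
    (Finset.univ.image fun g : Lin Δ => (r g : W ≃ᵃ[ℂ] W) v) (fun p _ => by
      obtain ⟨f, hf, hfp⟩ := hva.gg () p (Set.mem_univ _)
      exact ⟨f (), hf, hfp⟩)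
  obtain ⟨h1, h2⟩ := sec_res hf
  refine ⟨_, Q47.EB.norm_section hΔ r hr h1 h2, ?_⟩
  rw [Finset.prod_mul_distrib]
  exact mul_ne_zero (Finset.prod_ne_zero_iff.2 fun g _ =>
    hfv _ (Finset.mem_image_of_mem _ (Finset.mem_univ g)))
    (Finset.prod_ne_zero_iff.2 fun g _ => inv_ne_zero (pow_ne_zero _ (A.ne_zero _ _)))

/-- The sections separate the points of the quotient. -/
theorem sep_base (hΔ : IsTorusQuotient Δ) (hc : IsChernForm A H) (hp : IsPositiveForm H)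
    {w w' : W} (hw : ∀ δ : Δ, (δ : W ≃ᵃ[ℂ] W) w' ≠ w) :
    ∃ s, (A.pow (ext Δ)).IsSection s ∧ s w = 0 ∧ s w' ≠ 0 := by
  classical
  have := finite_Lin hΔ
  have : Fintype (Lin Δ) := Fintype.ofFinite _
  have hva := res_va hΔ hc hp
  have hr : ∀ g : Lin Δ, ∃ γ : Δ, (γ : W ≃ᵃ[ℂ] W).linear = g.1 := by
    rintro ⟨g, γ, hγ, rfl⟩
    exact ⟨⟨γ, hγ⟩, rfl⟩
  choose r hr using hr
  obtain ⟨f, ⟨hf, hfw⟩, hfv⟩ := avoid
    (fun f : W → ℂ => (Q47.FJ.IsSec (res A * res A * res A) fun _ => f) ∧ f w = 0)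
    (fun f g hf hg t => ⟨by simpa using hf.1.comb hg.1 1 (-t), by
      change f w + t * g w = 0
      rw [hf.2, hg.2, mul_zero, add_zero]⟩)
    ⟨⟨fun _ => differentiableOn_const _, fun _ _ _ => by simp⟩, rfl⟩
    (Finset.univ.image fun g : Lin Δ => (r g : W ≃ᵃ[ℂ] W) w') (fun p hp => by
      obtain ⟨g, _, rfl⟩ := Finset.mem_image.1 hp
      by_contra hcon
      push Not at hcon
      obtain ⟨b, -, -, -, hb⟩ := hva.pts () w (Set.mem_univ _) () ((r g : W ≃ᵃ[ℂ] W) w')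
        (Set.mem_univ _) fun f hf h0 => hcon (f ()) ⟨hf, h0⟩
      have h1 : w + (b : W) = (r g : W ≃ᵃ[ℂ] W) w' := hb
      refine hw ((tr (b : W) b.2)⁻¹ * r g) ?_
      have h2 : (((tr (b : W) b.2)⁻¹ * r g : Δ) : W ≃ᵃ[ℂ] W) w'
          = (((tr (b : W) b.2)⁻¹ : Δ) : W ≃ᵃ[ℂ] W) ((r g : W ≃ᵃ[ℂ] W) w') := rfl
      have h3 : ((tr (b : W) b.2 : Δ) : W ≃ᵃ[ℂ] W) w = (r g : W ≃ᵃ[ℂ] W) w' := by
        rw [tr_apply, ← h1, add_comm]
      rw [h2, ← h3]
      exact AffineEquiv.symm_apply_apply _ _)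
  obtain ⟨h1, h2⟩ := sec_res hf
  refine ⟨_, Q47.EB.norm_section hΔ r hr h1 h2, ?_, ?_⟩
  · refine Finset.prod_eq_zero (Finset.mem_univ (1 : Lin Δ)) ?_
    have h3 : ∀ v, ((r 1 : Δ) : W ≃ᵃ[ℂ] W).linear v = v := fun v => by rw [hr]; rfl
    obtain ⟨hb, hγ⟩ := eq_tr _ h3
    have h4 : ((r 1 : Δ) : W ≃ᵃ[ℂ] W) w = ((r 1 : Δ) : W ≃ᵃ[ℂ] W) 0 + w := by
      rw [← tr_apply _ hb, ← hγ]
    rw [h4, h2 _ hb, hfw, mul_zero, zero_mul]
  · rw [Finset.prod_mul_distrib]
    exact mul_ne_zero (Finset.prod_ne_zero_iff.2 fun g _ =>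
      hfv _ (Finset.mem_image_of_mem _ (Finset.mem_univ g)))
      (Finset.prod_ne_zero_iff.2 fun g _ => inv_ne_zero (pow_ne_zero _ (A.ne_zero _ _)))

end Base

end Q36.EF
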