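import Pool.Agent.Q36.EF.Tw

/-!
# The effective SYZ conjecture for quotients of complex tori
-/

set_option autoImplicit false

namespace Q36.EF

open Pool.Agent.W594.SYZ2 Pool.Agent.W594.SYZ2.TQ Pool.Agent.TH735.AQ

variable {V : Type*} [NormedAddCommGroup V] [NormedSpace ℂ V] [FiniteDimensional ℂ V]
  {Γ : Subgroup (V ≃ᵃ[ℂ] V)} {L : LineBundle Γ} {H : V → V → ℂ}

theorem N_pos (d : ℕ) : 1 ≤ N d :=
  Nat.mul_pos (by norm_num) (pow_pos (Nat.factorial_pos _) 3)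

omit [FiniteDimensional ℂ V] in
theorem lag_fib {W : Type*} [NormedAddCommGroup W] [NormedSpace ℂ W]
    {Δ : Subgroup (W ≃ᵃ[ℂ] W)} {π : V →ₗ[ℂ] W} (h : IsLagrangianFibration Γ Δ π) :
    IsFibration Γ Δ π := ⟨h.surj, h.maps, h.onto, h.base⟩

/-- Nef line bundles are the ones with base point free `N`-th power. -/
theorem nef_iff (hΓ : IsTorusQuotient Γ) (h01 : HOneZero Γ) (hc : IsChernForm L H) :
    IsNefForm H ↔ BasePointFree (L.pow (N (Module.finrank ℂ V))) := by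
  constructor
  · intro hn
    obtain ⟨n, Δ, π, -, -, -, h⟩ := exists_defines hΓ hc hn
    exact (h h01).bpf
  · intro h
    obtain ⟨hH, F, hF, hFe⟩ := hc
    exact Q47.EB.nef_of_gg hΓ hH ⟨hF, hFe⟩ (N_pos _) h

/-- The effective SYZ conjecture for nef line bundles. -/
theorem syz (hΓ : IsPrimitiveSymplectic Γ) (hc : IsChernForm L H) (hn : IsNefForm H)
    (hd : IsDegenerateForm H) :
    ((∀ v w, H v w = 0) ↔ (L.pow (N (Module.finrank ℂ V))).IsTrivial) ∧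
    ((∃ v w, H v w ≠ 0) → ∃ (n : ℕ) (Δ : Subgroup ((Fin n → ℂ) ≃ᵃ[ℂ] (Fin n → ℂ)))
      (π : V →ₗ[ℂ] (Fin n → ℂ)), IsLagrangianFibration Γ Δ π ∧
        Defines (L.pow (N (Module.finrank ℂ V)))
          (fun v w => (N (Module.finrank ℂ V) : ℂ) * H v w) Δ π ∧
        ∀ (n' : ℕ) (Δ' : Subgroup ((Fin n' → ℂ) ≃ᵃ[ℂ] (Fin n' → ℂ)))
          (π' : V →ₗ[ℂ] (Fin n' → ℂ)), IsLagrangianFibration Γ Δ' π' → Induces L Δ' π' →
          ∃ φ : (Fin n → ℂ) ≃ₗ[ℂ] (Fin n' → ℂ), (∀ v, π' v = φ (π v)) ∧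
            ∀ δ' : (Fin n' → ℂ) ≃ᵃ[ℂ] (Fin n' → ℂ),
              δ' ∈ Δ' ↔ ∃ δ ∈ Δ, ∀ w, δ' (φ w) = φ (δ w)) := by
  obtain ⟨h1, h2⟩ := TQ.main hΓ L H hc hn hd
  refine ⟨⟨fun h0 => trivial_of_zero hΓ.torus hc h0 ((nef_iff hΓ.torus hΓ.h01 hc).1 hn),
    fun h => h1.2 ⟨_, N_pos _, h⟩⟩, fun hne => ?_⟩
  obtain ⟨n, Δ, π, hker, hlag, -⟩ := h2 hne
  refine ⟨n, Δ, π, hlag, defines_of_hone hΓ.torus hΓ.h01 hc hn hlag.surj hlag.maps hlag.onto hker,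
    fun n' Δ' π' hlag' hind => unique_fib (lag_fib hlag) (lag_fib hlag') fun v => ?_⟩
  rw [hker, (nef_of_induces hΓ.torus hc (lag_fib hlag') hind).2]

end Q36.EF
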