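import Pool.Agent.Q36.EF.Cy
import Pool.Agent.TH128.SYZ.PsefConv

/-!
# Nef classes on torus quotients: the equivalent conditions
-/

set_option autoImplicit false

namespace Q36.EF

open Pool.Agent.W594.SYZ2 Pool.Agent.W594.SYZ2.TQ Pool.Agent.TH735.AQ Pool.Agent.TH128.SYZ

variable {V : Type*} [NormedAddCommGroup V] [NormedSpace ℂ V] [FiniteDimensional ℂ V]
  {Γ : Subgroup (V ≃ᵃ[ℂ] V)} {L : LineBundle Γ} {H : V → V → ℂ}

/-- A base point free line bundle with Chern form `k H`, `k ≥ 1`, makes `H` nef. -/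
theorem nef_of_bpf (hΓ : IsTorusQuotient Γ) {k : ℕ} (hk : 1 ≤ k) {M : LineBundle Γ}
    (hM : IsChernForm M fun v w => (k : ℂ) * H v w) (hb : BasePointFree M) : IsNefForm H := by
  obtain ⟨s, hs, h0⟩ := hb 0
  have h1 : IsNefForm fun v w => (k : ℂ) * H v w := by
    refine Pool.Agent.Q42.EB.nef_of_pow hΓ hM (m := 1) le_rfl (s := s) ?_ fun h => h0 (by rw [h]; rfl)
    refine ⟨hs.1, fun γ v => ?_⟩
    have := hs.2 γ v
    change s ((γ : V ≃ᵃ[ℂ] V) v) = M.e γ v ^ 1 * s v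
    rwa [pow_one]
  intro v
  have h2 := h1 v
  have h3 : ((k : ℂ) * H v v).re = (k : ℝ) * (H v v).re := by
    rw [← Complex.ofReal_natCast, Complex.re_ofReal_mul]
  rw [h3] at h2
  have hk0 : (0 : ℝ) < k := by exact_mod_cast hk
  exact nonneg_of_mul_nonneg_right h2 hk0

omit [FiniteDimensional ℂ V] in
/-- A line bundle which defines a fibration has the pulled back Chern form; so `H` is nef. -/
theorem nef_of_defines {k : ℕ} (hk : 1 ≤ k) {M : LineBundle Γ}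
    {n : ℕ} {Δ : Subgroup ((Fin n → ℂ) ≃ᵃ[ℂ] (Fin n → ℂ))} {π : V →ₗ[ℂ] (Fin n → ℂ)}
    (h : Defines M (fun v w => (k : ℂ) * H v w) Δ π) : IsNefForm H := by
  obtain ⟨A, HA, _, hA, hp, hH, -⟩ := h.pullback
  intro v
  have h1 : 0 ≤ (HA (π v) (π v)).re := by
    by_cases h0 : π v = 0
    · rw [h0, h_zero_left hA.1]
      simp
    · exact (hp _ h0).le
  rw [hH] at h1
  have h3 : ((k : ℂ) * H v v).re = (k : ℝ) * (H v v).re := by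
    rw [← Complex.ofReal_natCast, Complex.re_ofReal_mul]
  rw [h3] at h1
  have hk0 : (0 : ℝ) < k := by exact_mod_cast hk
  exact nonneg_of_mul_nonneg_right h1 hk0

theorem num_tfae (hΓ : IsTorusQuotient Γ) (hc : IsChernForm L H) :
    List.TFAE [IsPseudoEffective L, IsNefForm H,
      ∃ (n : ℕ) (Δ : Subgroup ((Fin n → ℂ) ≃ᵃ[ℂ] (Fin n → ℂ))) (π : V →ₗ[ℂ] (Fin n → ℂ))
        (M : LineBundle Γ) (χ : Γ → ℂ), IsFibration Γ Δ π ∧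
        IsFlatTwist M L (N (Module.finrank ℂ V)) χ ∧ (HOneZero Γ → ∀ γ, χ γ = 1) ∧
        Defines M (fun v w => (N (Module.finrank ℂ V) : ℂ) * H v w) Δ π,
      ∃ (k : ℕ) (M : LineBundle Γ), 1 ≤ k ∧ BasePointFree M ∧
        IsChernForm M fun v w => (k : ℂ) * H v w] := by
  tfae_have 1 ↔ 2 := psef_iff_nef hΓ hc
  tfae_have 2 → 3 := by
    intro hn
    obtain ⟨n, Δ, π, hf, ⟨M, χ, h1, h2, h3⟩, -⟩ := cy hΓ hc hn
    exact ⟨n, Δ, π, M, χ, hf, h1, h2, h3⟩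
  tfae_have 3 → 2 := by
    rintro ⟨n, Δ, π, M, χ, -, -, -, h3⟩
    exact nef_of_defines (N_pos _) h3
  tfae_have 2 → 4 := by
    intro hn
    obtain ⟨n, Δ, π, hf, ⟨M, χ, h1, h2, h3⟩, -⟩ := cy hΓ hc hn
    refine ⟨N (Module.finrank ℂ V), M, N_pos _, h3.bpf, ?_⟩
    have hp := Pool.Agent.Q42.EB.chern_pow hc (N (Module.finrank ℂ V))
    obtain ⟨hH, F, hF, hFe⟩ := hp
    refine ⟨hH, F, hF, fun γ v => ?_⟩
    rw [← hFe γ v, h1.2, norm_mul, h1.1, mul_one]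
    rfl
  tfae_have 4 → 2 := by
    rintro ⟨k, M, hk, hb, hM⟩
    exact nef_of_bpf hΓ hk hM hb
  tfae_finish

theorem hone_tfae (hΓ : IsTorusQuotient Γ) (h01 : HOneZero Γ) (hc : IsChernForm L H) :
    List.TFAE [IsPseudoEffective L, IsNefForm H,
      ∃ m : ℕ, 1 ≤ m ∧ ∃ s, (L.pow m).IsSection s ∧ s ≠ 0,
      BasePointFree (L.pow (N (Module.finrank ℂ V))),
      ∃ (n : ℕ) (Δ : Subgroup ((Fin n → ℂ) ≃ᵃ[ℂ] (Fin n → ℂ))) (π : V →ₗ[ℂ] (Fin n → ℂ)),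
        IsFibration Γ Δ π ∧ Defines (L.pow (N (Module.finrank ℂ V)))
          (fun v w => (N (Module.finrank ℂ V) : ℂ) * H v w) Δ π] := by
  tfae_have 1 ↔ 2 := psef_iff_nef hΓ hc
  tfae_have 2 → 5 := by
    intro hn
    obtain ⟨n, Δ, π, -, hf, -, h⟩ := exists_defines hΓ hc hn
    exact ⟨n, Δ, π, hf, h h01⟩
  tfae_have 5 → 4 := by
    rintro ⟨n, Δ, π, -, h⟩
    exact h.bpf
  tfae_have 4 → 3 := by
    intro h
    obtain ⟨s, hs, h0⟩ := h 0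
    exact ⟨_, N_pos _, s, hs, fun h3 => h0 (by rw [h3]; rfl)⟩
  tfae_have 3 → 2 := by
    rintro ⟨m, hm, s, hs, h0⟩
    exact Pool.Agent.Q42.EB.nef_of_pow hΓ hc hm hs h0
  tfae_finish

omit [FiniteDimensional ℂ V] in
/-- Two fibrations given by `H` are isomorphic. -/
theorem fib_unique {n : ℕ} {Δ : Subgroup ((Fin n → ℂ) ≃ᵃ[ℂ] (Fin n → ℂ))}
    {π : V →ₗ[ℂ] (Fin n → ℂ)} (hf : IsFibration Γ Δ π) {m : ℕ}
    {B : (Fin n → ℂ) → (Fin n → ℂ) → ℂ} (hm : 1 ≤ m) (hB : IsHermitian B)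
    (hp : IsPositiveForm B) (h : ∀ v w, B (π v) (π w) = (m : ℂ) * H v w)
    {n' : ℕ} {Δ' : Subgroup ((Fin n' → ℂ) ≃ᵃ[ℂ] (Fin n' → ℂ))}
    {π' : V →ₗ[ℂ] (Fin n' → ℂ)} (hf' : IsFibration Γ Δ' π') {m' : ℕ}
    {B' : (Fin n' → ℂ) → (Fin n' → ℂ) → ℂ} (hm' : 1 ≤ m') (hB' : IsHermitian B')
    (hp' : IsPositiveForm B') (h' : ∀ v w, B' (π' v) (π' w) = (m' : ℂ) * H v w) :
    ∃ φ : (Fin n → ℂ) ≃ₗ[ℂ] (Fin n' → ℂ), (∀ v, π' v = φ (π v)) ∧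
      ∀ δ' : (Fin n' → ℂ) ≃ᵃ[ℂ] (Fin n' → ℂ),
        δ' ∈ Δ' ↔ ∃ δ ∈ Δ, ∀ w, δ' (φ w) = φ (δ w) :=
  unique_fib hf hf' fun v => by
    rw [ker_of_pull hB hp hm h, ker_of_pull hB' hp' hm' h']

end Q36.EF
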