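import Pool.Agent.Q36.EF.Fb
import Pool.Agent.TH735.AQ.Flat

/-!
# The fibration of a nef class without a condition on `H^1`, and its uniqueness
-/

set_option autoImplicit false

namespace Q36.EF

open Pool.Agent.W594.SYZ2 Pool.Agent.W594.SYZ2.TQ Pool.Agent.TH735.AQ

variable {V : Type*} [NormedAddCommGroup V] [NormedSpace ℂ V]
  {Γ : Subgroup (V ≃ᵃ[ℂ] V)} {L : LineBundle Γ} {H : V → V → ℂ}

theorem lb_ext {L M : LineBundle Γ} (h : ∀ γ v, L.e γ v = M.e γ v) : L = M := by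
  cases L with
  | mk e h1 h2 h3 h4 =>
    cases M with
    | mk e' h1' h2' h3' h4' =>
      have : e = e' := by
        funext γ v
        exact h γ v
      subst this
      rfl

theorem flat_pow {P : LineBundle Γ} (hP : IsFlat P) (k : ℕ) : IsFlat (P.pow k) :=
  ⟨fun γ v w => by
    change P.e γ v ^ k = P.e γ w ^ k
    rw [hP.1 γ v w], fun γ v => by
    change ‖P.e γ v ^ k‖ = 1
    rw [norm_pow, hP.2, one_pow]⟩

theorem tensor_pow (L P : LineBundle Γ) (a k : ℕ) :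
    (tensor (L.pow a) P).pow k = tensor (L.pow (a * k)) (P.pow k) :=
  lb_ext fun γ v => by
    change (L.e γ v ^ a * P.e γ v) ^ k = L.e γ v ^ (a * k) * P.e γ v ^ k
    rw [mul_pow, pow_mul]

variable [FiniteDimensional ℂ V]

/-- After a flat twist the character on the kernel lattice is trivial. -/
theorem exists_twist (hΓ : IsTorusQuotient Γ) (hc : IsChernForm L H) (hn : IsNefForm H) :
    ∃ (P : LineBundle Γ) (F' : V → ℂ)
      (hH' : IsHermitian fun v w => ((Nat.card (Lin Γ) : ℕ) : ℂ) * H v w), IsFlat P ∧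
      IsPot (tensor (L.pow (Nat.card (Lin Γ))) P)
        (fun v w => ((Nat.card (Lin Γ) : ℕ) : ℂ) * H v w) F' ∧
      IsNefForm (fun v w => ((Nat.card (Lin Γ) : ℕ) : ℂ) * H v w) ∧
      (∀ v, (∀ w, ((Nat.card (Lin Γ) : ℕ) : ℂ) * H v w = 0) ↔ ∀ w, H v w = 0) ∧
      ∀ b ∈ latt Γ, b ∈ ker hH' →
        chi (tensor (L.pow (Nat.card (Lin Γ))) P) F' b ^ 1 = 1 := by
  obtain ⟨hH, F, hF, hFe⟩ := hc
  have hpot : IsPot L H F := ⟨hF, hFe⟩
  have := finite_Lin hΓ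
  obtain ⟨ℓ, hℓ, hχ⟩ := exists_inv_real hΓ hH hpot
  have hM : 0 < Nat.card (Lin Γ) := Nat.card_pos
  set M := Nat.card (Lin Γ) with hMdef
  have hℓ' : ∀ γ ∈ Γ, ∀ v, (-ℓ) (γ.linear v) = (-ℓ) v := fun γ hγ v => by
    rw [LinearMap.neg_apply, LinearMap.neg_apply, hℓ γ hγ]
  let P := flat (-ℓ) hℓ'
  let H' : V → V → ℂ := fun v w => (M : ℂ) * H v w
  let F' : V → ℂ := fun v => (M : ℂ) * F v
  have hMr : ∀ z : ℂ, ((M : ℂ) * z).re = (M : ℝ) * z.re := fun z => by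
    have : ((M : ℕ) : ℂ) = ((M : ℝ) : ℂ) := by push_cast; rfl
    rw [this, Complex.re_ofReal_mul]
  have hH' : IsHermitian H' := by
    refine ⟨fun u v w => ?_, fun a v w => ?_, fun v w => ?_⟩
    · simp only [H']
      rw [hH.add_left, mul_add]
    · simp only [H']
      rw [hH.smul_left]
      ring
    · simp only [H']
      rw [map_mul, ← hH.symm, Complex.conj_natCast]
  have hpot' : IsPot (tensor (L.pow M) P) H' F' := by
    refine ⟨hF.const_mul _, fun γ v => ?_⟩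
    have h1 : ‖(tensor (L.pow M) P).e γ v‖ ^ 2 = (‖L.e γ v‖ ^ 2) ^ M := by
      change ‖L.e γ v ^ M * P.e γ v‖ ^ 2 = _
      rw [norm_mul, (flat_isFlat (-ℓ) hℓ').2 γ v, mul_one, norm_pow, ← pow_mul, ← pow_mul,
        mul_comm]
    rw [h1, hFe, ← Real.exp_nat_mul]
    simp only [H', F', hMr]
    congr 1
    ring
  have hn' : IsNefForm H' := fun v => by
    simp only [H', hMr]
    exact mul_nonneg (Nat.cast_nonneg _) (hn v)
  have hker : ∀ v, (∀ w, H' v w = 0) ↔ ∀ w, H v w = 0 := by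
    intro v
    have hM0 : (M : ℂ) ≠ 0 := by exact_mod_cast hM.ne'
    refine forall_congr' fun w => ?_
    simp only [H']
    rw [mul_eq_zero]
    exact ⟨fun h => h.resolve_left hM0, Or.inr⟩
  have hroot : ∀ b ∈ latt Γ, b ∈ ker hH' → chi (tensor (L.pow M) P) F' b ^ 1 = 1 := by
    intro b hb hbK
    have hbK' : b ∈ ker hH := (hker b).1 hbK
    rw [pow_one, chi_eq hb, tw]
    have h1 : ((tr b hb : Γ) : V ≃ᵃ[ℂ] V) 0 = b := by rw [tr_apply, add_zero]
    have h2 : (tensor (L.pow M) P).e (tr b hb) 0 = L.e (tr b hb) 0 ^ M * P.e (tr b hb) 0 := rfl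
    have h3 : P.e (tr b hb) 0 = Complex.exp (((-ℓ) b : ℝ) * Complex.I) := by
      change Complex.exp (((-ℓ) (((tr b hb : Γ) : V ≃ᵃ[ℂ] V) 0) : ℂ) * Complex.I) = _
      rw [h1]
    have h4 : chi L F b ^ M = L.e (tr b hb) 0 ^ M * Complex.exp (F' 0 - F' b) := by
      rw [chi_eq hb, tw, h1, mul_pow, ← Complex.exp_nat_mul]
      simp only [F']
      congr 2
      ring
    rw [h1, h2, h3, mul_right_comm, ← h4, ← hχ b hb hbK', ← Complex.exp_add, LinearMap.neg_apply]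
    push_cast
    rw [neg_mul, add_neg_cancel, Complex.exp_zero]
  exact ⟨P, F', hH', flat_isFlat _ _, hpot', hn', hker, hroot⟩

/-- Every nef class is, up to the uniform factor and a flat twist, the class of a base point free
line bundle which defines a fibration. -/
theorem exists_defines (hΓ : IsTorusQuotient Γ) (hc : IsChernForm L H) (hn : IsNefForm H) :
    ∃ (n : ℕ) (Δ : Subgroup ((Fin n → ℂ) ≃ᵃ[ℂ] (Fin n → ℂ))) (π : V →ₗ[ℂ] (Fin n → ℂ)),
      (∀ v, π v = 0 ↔ ∀ w, H v w = 0) ∧ IsFibration Γ Δ π ∧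
      (∃ P : LineBundle Γ, IsFlat P ∧ Defines (tensor (L.pow (N (Module.finrank ℂ V))) P)
        (fun v w => (N (Module.finrank ℂ V) : ℂ) * H v w) Δ π) ∧
      (HOneZero Γ → Defines (L.pow (N (Module.finrank ℂ V)))
        (fun v w => (N (Module.finrank ℂ V) : ℂ) * H v w) Δ π) := by
  obtain ⟨P, F', hH', hP, hpot', hn', hker, hroot⟩ := exists_twist hΓ hc hn
  let n := Module.finrank ℂ (V ⧸ ker hH')
  let e : (V ⧸ ker hH') ≃ₗ[ℂ] (Fin n → ℂ) := (Module.finBasis ℂ (V ⧸ ker hH')).equivFun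
  let π : V →ₗ[ℂ] (Fin n → ℂ) := (e : (V ⧸ ker hH') →ₗ[ℂ] (Fin n → ℂ)) ∘ₗ (ker hH').mkQ
  have S : Pool.Agent.TH735.AQ.Sit Γ (tensor (L.pow (Nat.card (Lin Γ))) P)
      (fun v w => ((Nat.card (Lin Γ) : ℕ) : ℂ) * H v w) F' π hH' 1 := by
    refine ⟨hΓ, hpot', hn', ?_, ?_, le_rfl, hroot⟩
    · exact e.surjective.comp (ker hH').mkQ_surjective
    · intro v
      change e ((ker hH').mkQ v) = 0 ↔ v ∈ ker hH'
      rw [LinearEquiv.map_eq_zero_iff, Submodule.mkQ_apply, Submodule.Quotient.mk_eq_zero]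
  have hkerπ : ∀ v, π v = 0 ↔ ∀ w, H v w = 0 := fun v => (S.ker_iff v).trans (hker v)
  refine ⟨n, Del Γ π, π, hkerπ, S.isFibration, ?_, fun h01 =>
    defines_of_hone hΓ h01 hc hn S.surj S.isFibration.maps S.isFibration.onto hkerπ⟩
  have h2 : Nat.card (Lin Γ) ∣ Q47.EB.mink (Module.finrank ℂ V) := Q47.EB.card_Lin_dvd hΓ
  have h3 : Nat.card (Lin (Del Γ π)) ∣ Q47.EB.mink (Module.finrank ℂ V) :=
    (Q47.EB.card_Lin_dvd S.base).trans
      (Q47.EB.mink_dvd (LinearMap.finrank_le_finrank_of_surjective S.surj))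
  obtain ⟨c, hc2⟩ := Nat.mul_dvd_mul h2 h2
  obtain ⟨c', hc'⟩ := h3
  have hpos := Q47.EB.mink_pos (Module.finrank ℂ V)
  have h5 : N (Module.finrank ℂ V) = Nat.card (Lin Γ) *
      (Pool.Agent.TH735.AQ.ex Γ 1 * (ext (Del Γ π) * (c * c'))) := by
    have e1 : N (Module.finrank ℂ V) = 3 * Q47.EB.mink (Module.finrank ℂ V) ^ 3 := rfl
    rw [e1, Pool.Agent.TH735.AQ.ex, ext]
    have e2 : 3 * Q47.EB.mink (Module.finrank ℂ V) ^ 3 = Q47.EB.mink (Module.finrank ℂ V) *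
        Q47.EB.mink (Module.finrank ℂ V) * (3 * Q47.EB.mink (Module.finrank ℂ V)) := by ring
    rw [e2, hc2, hc']
    ring
  have h6 : 1 ≤ ext (Del Γ π) * (c * c') := by
    rw [Nat.one_le_iff_ne_zero]
    intro h0
    rw [h0, mul_zero, mul_zero] at h5
    have e1 : N (Module.finrank ℂ V) = 3 * Q47.EB.mink (Module.finrank ℂ V) ^ 3 := rfl
    rw [e1] at h5
    have := pow_pos hpos 3
    omega
  have h7 := defines_of_sit S h6 (Dvd.intro _ rfl)
  rw [tensor_pow, ← h5] at h7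
  have h8 : (fun v w => ((Pool.Agent.TH735.AQ.ex Γ 1 * (ext (Del Γ π) * (c * c')) : ℕ) : ℂ) *
      (((Nat.card (Lin Γ) : ℕ) : ℂ) * H v w)) = fun v w => (N (Module.finrank ℂ V) : ℂ) * H v w := by
    funext v w
    rw [h5]
    push_cast
    ring
  rw [h8] at h7
  exact ⟨_, flat_pow hP _, h7⟩

omit [FiniteDimensional ℂ V] in
/-- The kernel of a linear map which pulls a positive form back to a multiple of `H`. -/
theorem ker_of_pull {W : Type*} [NormedAddCommGroup W] [NormedSpace ℂ W] {π : V →ₗ[ℂ] W}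
    {HA : W → W → ℂ} (hHA : IsHermitian HA) (hp : IsPositiveForm HA) {m : ℕ} (hm : 1 ≤ m)
    (h : ∀ v w, HA (π v) (π w) = (m : ℂ) * H v w) (v : V) : π v = 0 ↔ ∀ w, H v w = 0 := by
  have hm0 : (m : ℂ) ≠ 0 := by
    have : m ≠ 0 := by omega
    exact_mod_cast this
  constructor
  · intro hv w
    have h1 := h v w
    rw [hv, h_zero_left hHA] at h1
    exact (mul_eq_zero.1 h1.symm).resolve_left hm0
  · intro hv
    by_contra hne
    have h1 := hp _ hne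
    rw [h, hv, mul_zero] at h1
    simp at h1

omit [FiniteDimensional ℂ V] in
/-- The fibration is determined by the kernel. -/
theorem unique_fib {W W' : Type*} [NormedAddCommGroup W] [NormedSpace ℂ W]
    [NormedAddCommGroup W'] [NormedSpace ℂ W'] {Δ : Subgroup (W ≃ᵃ[ℂ] W)}
    {Δ' : Subgroup (W' ≃ᵃ[ℂ] W')} {π : V →ₗ[ℂ] W} {π' : V →ₗ[ℂ] W'} (h : IsFibration Γ Δ π)
    (h' : IsFibration Γ Δ' π') (hk : ∀ v, π v = 0 ↔ π' v = 0) :
    ∃ φ : W ≃ₗ[ℂ] W', (∀ v, π' v = φ (π v)) ∧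
      ∀ δ' : W' ≃ᵃ[ℂ] W', δ' ∈ Δ' ↔ ∃ δ ∈ Δ, ∀ w, δ' (φ w) = φ (δ w) := by
  have hker : LinearMap.ker π = LinearMap.ker π' := by
    ext v
    rw [LinearMap.mem_ker, LinearMap.mem_ker, hk]
  let φ : W ≃ₗ[ℂ] W' := (π.quotKerEquivOfSurjective h.surj).symm ≪≫ₗ
    (Submodule.quotEquivOfEq _ _ hker) ≪≫ₗ (π'.quotKerEquivOfSurjective h'.surj)
  have hφ : ∀ v, π' v = φ (π v) := by
    intro v
    have h1 : (π.quotKerEquivOfSurjective h.surj).symm (π v)
        = (Submodule.Quotient.mk v : V ⧸ LinearMap.ker π) := by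
      rw [LinearEquiv.symm_apply_eq]
      rfl
    change π' v = (π'.quotKerEquivOfSurjective h'.surj) (Submodule.quotEquivOfEq _ _ hker
      ((π.quotKerEquivOfSurjective h.surj).symm (π v)))
    rw [h1]
    rfl
  refine ⟨φ, hφ, fun δ' => ⟨fun hδ' => ?_, ?_⟩⟩
  · obtain ⟨γ, hγ, h1⟩ := h'.onto δ' hδ'
    obtain ⟨δ, hδ, h2⟩ := h.maps γ hγ
    refine ⟨δ, hδ, fun w => ?_⟩
    obtain ⟨v, rfl⟩ := h.surj w
    rw [← hφ, h1, h2, hφ]
  · rintro ⟨δ, hδ, h1⟩
    obtain ⟨γ, hγ, h2⟩ := h.onto δ hδ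
    obtain ⟨δ'', hδ'', h3⟩ := h'.maps γ hγ
    have : δ' = δ'' := by
      ext w'
      obtain ⟨v, rfl⟩ := h'.surj w'
      rw [h3, hφ v, h1, h2, ← hφ]
    rwa [this]

end Q36.EF
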